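import Pool.Agent.H.MP_ded0ac_co.E

set_option autoImplicit false

namespace Pool.Agent.Results.MP_ded0ac_co.Yes

open Set MeasureTheory Real

noncomputable def vert (n : ℕ) (θ ε : ℝ) (i m : ℤ) : ℂ :=
  (1 / (2 * sin (π / n))) •
    (Complex.exp ((θ + 2 * π * i / (n + 1) + 2 * π * m / n : ℝ) * Complex.I) +
      ε • Complex.exp ((θ + 2 * π * i / (n + 1) : ℝ) * Complex.I))

def U (n : ℕ) (θ ε : ℝ) : Set ℂ := ⋃ i : ℤ, convexHull ℝ (range (vert n θ ε i))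

def Pattern (n : ℕ) (θ ε : ℝ) : Prop :=
  ∃ W : ℤ → ℂ, (∀ j, W j ∈ segment ℝ (vert n θ ε (-j) j) (vert n θ ε (-j) (j + 1)) ∧
      W j ∈ segment ℝ (vert n θ ε (-j - 1) j) (vert n θ ε (-j - 1) (j + 1))) ∧
    frontier (U n θ ε) = ⋃ j, (segment ℝ (vert n θ ε (-j) j) (W j) ∪
      segment ℝ (W j) (vert n θ ε (-j - 1) (j + 1)))

theorem result (n : ℕ) (hn : 3 ≤ n) (θ : ℝ) :
    (∃ ε₀ > 0, ∀ ε ∈ Ioo (0:ℝ) ε₀, Pattern n θ ε) ∧
    ∀ ε > 0, Pattern n θ ε →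
      4 * tan (π / n) < (μH[1] (frontier (U n θ ε))).toReal / (volume (U n θ ε)).toReal := by
  have hv : vert n θ = H.MP_ded0ac_co.vert n θ := by
    funext ε i m
    unfold vert H.MP_ded0ac_co.vert H.MP_ded0ac_co.R
    rw [H.MP_ded0ac_co.E_eq, H.MP_ded0ac_co.E_eq, smul_add, smul_comm ε]
  have hU : U n θ = H.MP_ded0ac_co.U n θ := by
    funext ε
    unfold U H.MP_ded0ac_co.U H.MP_ded0ac_co.poly
    rw [hv]
  have hP : Pattern n θ = H.MP_ded0ac_co.Pat n θ := by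
    funext ε
    unfold Pattern H.MP_ded0ac_co.Pat
    rw [hv, hU]
  rw [hP, hU]
  refine ⟨?_, fun ε hε hp => H.MP_ded0ac_co.partA hn θ ε hε hp⟩
  obtain ⟨ε₀, h0, h⟩ := H.MP_ded0ac_co.small_ex hn
  exact ⟨ε₀, h0, fun ε hε => H.MP_ded0ac_co.partB hn θ (h ε hε)⟩

end Pool.Agent.Results.MP_ded0ac_co.Yes
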